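import Pool.Agent.Helper5.UN.Goals

/-!
# Project UN, packet FEX: existence of the auxiliary polynomial
-/

set_option autoImplicit false

namespace Pool.Agent.Helper12.UN

open WeierstrassCurve Height Height.AdmissibleAbsValues MvPolynomial
open Pool.Agent.Helper29.BL Pool.Agent.Helper5.RO Pool.Agent.Helper5.UN

noncomputable section

section poly

variable {K : Type} [Field K] {σ : Type} [Fintype σ] [DecidableEq σ]

/-- the exponent vector of a box -/
def ex (E : σ → ℕ) (k : ∀ i, Fin (E i + 1)) : σ →₀ ℕ :=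
  Finsupp.equivFunOnFinite.symm fun i => (k i : ℕ)

lemma ex_apply (E : σ → ℕ) (k : ∀ i, Fin (E i + 1)) (i : σ) : ex E k i = (k i : ℕ) := rfl

lemma ex_inj (E : σ → ℕ) : Function.Injective (ex E) := by
  intro k l h
  funext i
  have h1 := DFunLike.congr_fun h i
  rw [ex_apply, ex_apply] at h1
  exact Fin.ext h1

/-- the polynomials of degree `≤ E i` in the variable `i` -/
def box (E : σ → ℕ) : ((∀ i, Fin (E i + 1)) → K) →ₗ[K] MvPolynomial σ K where
  toFun p := ∑ k, monomial (ex E k) (p k)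
  map_add' p q := by
    rw [← Finset.sum_add_distrib]
    exact Finset.sum_congr rfl fun k _ => by rw [Pi.add_apply, map_add]
  map_smul' c p := by
    rw [RingHom.id_apply, Finset.smul_sum]
    exact Finset.sum_congr rfl fun k _ => by rw [Pi.smul_apply, smul_eq_mul, smul_monomial, smul_eq_mul]

lemma coeff_box (E : σ → ℕ) (p : (∀ i, Fin (E i + 1)) → K) (k : ∀ i, Fin (E i + 1)) :
    coeff (ex E k) (box E p) = p k := by
  classical
  change coeff (ex E k) (∑ l, monomial (ex E l) (p l)) = p k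
  rw [coeff_sum, Finset.sum_eq_single k]
  · rw [coeff_monomial, if_pos rfl]
  · intro l _ hl
    rw [coeff_monomial, if_neg fun h => hl (ex_inj E h)]
  · intro h
    exact absurd (Finset.mem_univ k) h

lemma box_ne {E : σ → ℕ} {p : (∀ i, Fin (E i + 1)) → K} (hp : p ≠ 0) : box E p ≠ 0 := by
  intro h
  apply hp
  funext k
  rw [← coeff_box E p k, h, coeff_zero]
  rfl

lemma degreeOf_box (E : σ → ℕ) (p : (∀ i, Fin (E i + 1)) → K) (i : σ) :
    degreeOf i (box E p) ≤ E i := by
  classical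
  change degreeOf i (∑ l, monomial (ex E l) (p l)) ≤ E i
  rw [degreeOf_le_iff]
  intro m hm
  by_contra hc
  apply mem_support_iff.1 hm
  rw [coeff_sum]
  refine Finset.sum_eq_zero fun l _ => ?_
  rw [coeff_monomial, if_neg]
  rintro rfl
  apply hc
  rw [ex_apply]
  have := (l i).2
  omega

end poly

theorem gFEX (hHVB : G_HVB) (hDEGR : G_DEGR) (hRELM : G_RELM) (hDIM : G_DIM) (hHILB : G_HILB) :
    G_FEX := by
  intro K _ B _ W _ n s ι _ D f hf hcod
  classical
  obtain ⟨hadd, hsmul, -, -, hmap, -, hdeg⟩ := hHVB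
  obtain ⟨hD1, hD2, hD3⟩ := hDEGR
  let d : ℕ := Fintype.card (IX n) - (s + 1)
  -- the dimension of the centre in a chart
  have hdim : ∀ (a : ∀ t, EE (n t) → Bool) (Ω : Type) [Field Ω] [Algebra K Ω] (ζ : VX n → Ω),
      (∀ g ∈ IA W n a D f, aeval ζ g = 0) → ∃ T : Finset Ω, T.card ≤ d ∧
        ∀ i, IsAlgebraic (IntermediateField.adjoin K (T : Set Ω)) (ζ i) := by
    intro a Ω _ _ ζ hζ
    have h1 := hRELM K B W n a Ω ζ fun g hg => hζ g (Ideal.mem_sup_left hg)
    have h2 : ∀ j, hv (algebraMap K Ω) (fun _ => D) (f j)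
        (fun i => pr (a i.1) (fun e => ζ ⟨i.1, e⟩) (un i.2)) = 0 := by
      intro j
      have h3 := hζ (ft n a D (f j)) (Ideal.mem_sup_right (Ideal.subset_span ⟨j, rfl⟩))
      have h4 := hmap K (MvPolynomial (VX n) K) Ω C (aeval ζ).toRingHom (IX n) (fun _ => D) (f j)
        (fun i => pr (a i.1) (fun e => X ⟨i.1, e⟩) (un i.2))
      have h5 : ((aeval ζ).toRingHom : MvPolynomial (VX n) K →+* Ω).comp C = algebraMap K Ω := by
        ext x
        simp
      have h6 : (fun (i : IX n) (j : Fin 2) => (aeval ζ).toRingHom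
          (pr (a i.1) (fun e => (X ⟨i.1, e⟩ : MvPolynomial (VX n) K)) (un i.2) j)) =
          fun i => pr (a i.1) (fun e => ζ ⟨i.1, e⟩) (un i.2) := by
        funext i j
        unfold pr
        split_ifs <;> fin_cases j <;> simp
      rw [h5, h6] at h4
      rw [← h4]
      exact h3
    obtain ⟨T, hT1, hT2⟩ := hDIM K B W n a Ω ζ h1 ι D s f hf hcod h2
    exact ⟨T, by omega, hT2⟩
  choose c hc using fun a : ∀ t, EE (n t) → Bool => hHILB K (VX n) (IA W n a D f) d (hdim a)
  refine ⟨∑ a, c a, ?_⟩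
  intro m E R hR hm hER hcard
  choose L hL using fun a => hc a R hR
  let Fl : (∀ t, EE (n t) → Bool) → (MvPolynomial (IX n) K →ₗ[K] MvPolynomial (VX n) K) := fun a =>
    { toFun := fun F => Ft W n a E m F
      map_add' := fun F G => hadd _ _ _ _ _ _ _ _
      map_smul' := fun x F => by
        rw [RingHom.id_apply, smul_eq_C_mul, smul_eq_C_mul]
        exact hsmul _ _ _ _ _ _ _ _ }
  let Φ : ((∀ i, Fin (E i + 1)) → K) →ₗ[K] (∀ a, Fin (c a * R ^ d) → K) :=
    LinearMap.pi fun a => (L a).comp ((Fl a).comp (box E))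
  have hfr : Module.finrank K (∀ a, Fin (c a * R ^ d) → K) <
      Module.finrank K ((∀ i, Fin (E i + 1)) → K) := by
    rw [Module.finrank_pi_fintype, Module.finrank_fintype_fun_eq_card, Fintype.card_pi]
    simp only [Module.finrank_fintype_fun_eq_card, Fintype.card_fin]
    rw [← Finset.sum_mul]
    exact hcard
  have hker := LinearMap.ker_ne_bot_of_finrank_lt (f := Φ) hfr
  obtain ⟨p, hp, hp0⟩ := (Submodule.ne_bot_iff _).1 hker
  refine ⟨box E p, box_ne hp0, degreeOf_box E p, fun a => ?_⟩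
  apply hL a
  · refine (hdeg K (IX n) (VX n) E (fun i => 8 * ∑ k, (m i.1 i.2 k).natAbs ^ 2) (box E p) _
      (degreeOf_box E p) fun i j => ?_).trans hER
    refine (hD1 K (VX n) (W i.1) (n i.1) (a i.1) _ (fun e => ?_) (lv (m i.1 i.2)) (m i.1 i.2)
      j).trans (hD2 _ _ (hm i.1 i.2))
    exact (totalDegree_X _).le
  · exact congrFun (LinearMap.mem_ker.1 hp) a

end

end Pool.Agent.Helper12.UN
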