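import Mathlib
import Pool.Agent.Helper43.UN.GoalsH
import Pool.Agent.Helper67.UW.PGu

/-!
# UN packet PX (MP_d3128a_ag): prices
-/

set_option autoImplicit false

namespace Pool.Agent.Helper12.UN

open Finset
open Pool.Agent.Helper43.Hw (T na va lz Play)
open Pool.Agent.Helper43.Gm (Pri st mv nn)
open Pool.Agent.Helper18.EW (GoalPA)
open Pool.Agent.Helper18.UW (UPlay uz GoalU1)
open Pool.Agent.Helper16.EW (rmono dl One lt_st st_le dl_pos F)
open Pool.Agent.Helper67.UW (PU x_leU drop_ordU)
open Pool.Agent.Helper43.UN (xv GoalPX)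

/-- the ranks -/
def rX (Y g : ℕ) (κ : ℕ → ℕ) (t : ℕ) : ℕ := if t < Y then κ t else g + 2 + (t - Y)

/-- the size of the steps of the last rows -/
def DX (R : ℕ) : ℕ := 8 * (R + 1) ^ 2 * (R + 1).factorial

/-- the sizes of the steps -/
def dX (m : ℕ → ℕ) (R Y g : ℕ) (κ x : ℕ → ℕ) (t : ℕ) : ℕ :=
  if t < Y then dl R (rX Y g κ) (PU m R κ x x 0 0) t else DX R

/-- the ranks of the points -/
def kX (g : ℕ) (s : ℕ → ℕ) (c : ℕ) : ℕ := if c < g then c else g + 1 + s (c - g)

/-- the slopes of the points -/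
def sX (R g : ℕ) (s z : ℕ → ℕ) (c : ℕ) : ℕ :=
  if c < g then 2 * (R + 2) else max 1 (DX R / (z (c - g) - s (c - g)) - 1)

theorem DX_pos (R : ℕ) : 1 ≤ DX R := by
  unfold DX
  have := Nat.factorial_pos (R + 1)
  have h : 0 < 8 * (R + 1) ^ 2 * (R + 1).factorial := by positivity
  omega

/-- the slope of a point of the second kind -/
theorem slope {R k : ℕ} (h1 : 1 ≤ k) (h2 : k ≤ R) :
    max 1 (DX R / k - 1) * k < DX R ∧ DX R < max 1 (DX R / k - 1) * (k + 1) := by
  have hdvd : k ∣ (R + 1).factorial := Nat.dvd_factorial h1 (by omega)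
  obtain ⟨f, hf⟩ := hdvd
  have hf1 : 1 ≤ f := by
    have h3 := Nat.factorial_pos (R + 1)
    rcases Nat.eq_zero_or_pos f with h0 | h0
    · rw [hf, h0, mul_zero] at h3
      omega
    · exact h0
  have hD : DX R = k * (8 * (R + 1) ^ 2 * f) := by
    unfold DX
    rw [hf]
    ring
  obtain ⟨q, hq⟩ : ∃ q, q = 8 * (R + 1) ^ 2 * f := ⟨_, rfl⟩
  rw [← hq] at hD
  have hq1 : R + 3 ≤ q := by
    rw [hq]
    calc R + 3 ≤ 8 * (R + 1) ^ 2 * 1 := by nlinarith
      _ ≤ 8 * (R + 1) ^ 2 * f := Nat.mul_le_mul_left _ hf1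
  have hdiv : DX R / k = q := by
    rw [hD, Nat.mul_div_cancel_left _ (by omega)]
  rw [hdiv, max_eq_right (by omega), hD]
  obtain ⟨p, rfl⟩ : ∃ p, q = p + 1 := ⟨q - 1, by omega⟩
  rw [Nat.add_sub_cancel]
  constructor
  · nlinarith
  · nlinarith

section
variable {m : ℕ → ℕ} {R Y g N : ℕ} {κ x : ℕ → ℕ}

theorem rX_mono (hpl : UPlay m R N κ x) (hk : ∀ y < Y, κ y ≤ g) (t : ℕ) (ht : t + 1 < R) :
    rX Y g κ t ≤ rX Y g κ (t + 1) := by
  have h1 := hpl.mono t ht
  unfold rX
  rcases Nat.lt_or_ge (t + 1) Y with h2 | h2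
  · rw [if_pos (by omega), if_pos h2]; exact h1
  rw [if_neg (by omega : ¬ t + 1 < Y)]
  rcases Nat.lt_or_ge t Y with h3 | h3
  · rw [if_pos h3]
    have := hk t h3
    omega
  · rw [if_neg (by omega)]
    omega

theorem rX_ord (hk : ∀ y < Y, κ y ≤ g) (hk2 : ∀ y, Y ≤ y → κ y = g) {c t : ℕ} (hc : c < g) :
    (rX Y g κ t = c ↔ κ t = c) ∧ (c < rX Y g κ t ↔ c < κ t) := by
  unfold rX
  rcases Nat.lt_or_ge t Y with h1 | h1
  · rw [if_pos h1]
    exact ⟨Iff.rfl, Iff.rfl⟩
  · rw [if_neg (by omega)]
    have := hk2 t h1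
    omega

/-- an ordinary point -/
theorem pri_ordX (hpl : UPlay m R N κ x) (hgN : g ≤ N) (hk : ∀ y < Y, κ y ≤ g)
    (hk2 : ∀ y, Y ≤ y → κ y = g) {c : ℕ} (hc : c < g) {V : ℕ → ℤ}
    (hV : One R (rX Y g κ) (PU m R κ x x 0 0) c 2 V) {y : ℕ} (hy : y < R)
    (hn : 0 < va (m c) R κ x c y) :
    ∃ U : Finset ℕ, y ∉ U ∧ U.card + va (m c) R κ x c y ≤ m c ∧
      ∀ y' < R, y' ∉ U → y' ≠ y → V y' < V y := by
  obtain ⟨h1, h2⟩ := rX_ord (t := y) hk hk2 hc
  rcases lt_trichotomy (rX Y g κ y) c with h3 | h3 | h3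
  · have h4 : va (m c) R κ x c y = na (m c) R y := by
      unfold va
      rcases Nat.lt_or_ge (κ y) c with h5 | h5
      · rw [if_pos h5]
      · exfalso
        rcases Nat.lt_or_ge c (κ y) with h6 | h6
        · have := h2.2 h6
          omega
        · have := h1.2 (by omega)
          omega
    rw [h4] at hn ⊢
    refine ⟨Ioo y R, by simp, ?_, ?_⟩
    · rw [Nat.card_Ioo]
      unfold na at hn ⊢
      omega
    · intro y' h5 h6 h7
      rw [mem_Ioo] at h6
      exact hV.before hy h3 (by omega)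
  · have h4 := h1.1 h3
    have h5 : va (m c) R κ x c y = x y := by
      unfold va nn
      rw [if_neg (by omega), if_neg (by omega), if_pos h4]
    rw [h5] at hn ⊢
    have h6 : x y ≤ m c := by
      have := x_leU hpl hy (by omega)
      rwa [h4] at this
    refine ⟨Ioc y (y + (m c - x y)), by simp, ?_, ?_⟩
    · rw [Nat.card_Ioc]
      omega
    · intro y' h7 h8 h9
      rw [mem_Ioc] at h8
      refine hV.inside hy h3 h7 h9 ?_
      intro h10
      unfold PU
      rw [if_neg (by omega), if_pos hn, h4]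
      omega
  · have h4 := h2.1 h3
    have h5 : va (m c) R κ x c y =
        m c - (y - st κ c y) - (mv κ x (fun _ => m c) c y).card := by
      unfold va nn
      rw [if_neg (by omega), if_neg (by omega), if_neg (by omega)]
    rw [h5] at hn ⊢
    have hst := st_le (κ := κ) (c := c) (y := y)
    refine ⟨Ico (st κ c y) y ∪ mv κ x (fun _ => m c) c y, ?_, ?_, ?_⟩
    · simp [mv]
    · have h6 := card_union_le (Ico (st κ c y) y) (mv κ x (fun _ => m c) c y)
      rw [Nat.card_Ico] at h6
      omega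
    · intro y' h6 h7 h8
      rw [mem_union, mem_Ico] at h7
      have h9 : y' < y → κ y' ≤ c := by
        intro h10
        refine (lt_st (κ := κ) (fun a b h11 h12 => rmono hpl.mono h11 (by omega)) h10).1 ?_
        by_contra h13
        exact h7 (Or.inl ⟨by omega, h10⟩)
      obtain ⟨h10, h11⟩ := rX_ord (t := y') hk hk2 hc
      refine hV.after hy h3 h6 h8 ?_ ?_
      · intro h12
        have := h9 h12
        by_contra h13
        have := h11.1 (by omega)
        omega
      · intro h12 h13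
        have h14 := h10.1 h13
        unfold PU
        rw [if_neg (by omega), h14]
        rcases Nat.eq_zero_or_pos (x y') with h15 | h15
        · rw [if_neg (by omega)]
          omega
        · rw [if_pos h15]
          have h16 : ¬ (m c + y' < x y' + y) := by
            intro h17
            refine h7 (Or.inr ?_)
            unfold mv
            rw [mem_filter, mem_range]
            exact ⟨h12, h14, h15, h17⟩
          omega

end

/-- a point of the second kind -/
theorem pri_secX {R Y g k0 z0 ρ q μ : ℕ} {r δ : ℕ → ℕ} {V : ℕ → ℤ} (hY : 1 ≤ Y)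
    (hr : ∀ t, t + 1 < R → r t ≤ r (t + 1))
    (hr1 : ∀ t, t < Y → r t ≤ g) (hr2 : ∀ t, Y ≤ t → r t = g + 2 + (t - Y))
    (hδ : ∀ t, Y ≤ t → δ t = DX R)
    (hρ : ρ = g + 1 + k0) (hk0 : k0 < R - Y) (hz0 : k0 < z0) (hz1 : z0 ≤ R - Y)
    (hq : q = max 1 (DX R / (z0 - k0) - 1))
    (ha : ∀ y z, y < z → z < R → r y < ρ → V y < V z)
    (hb : ∀ y z, y < z → z < R → ρ ≤ r y → q * (z - y) < F r δ ρ y z → V y < V z)
    (hc : ∀ y z, y < z → z < R → ρ ≤ r y → F r δ ρ y z < q * (z - y) → V z < V y)
    {y : ℕ} (hy : y < R) (hYy : Y ≤ y)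
    (hn : 0 < Pool.Agent.Helper18.SG.nv (R - Y) μ k0 z0 (y - Y)) :
    ∃ U : Finset ℕ, y ∉ U ∧ U.card + Pool.Agent.Helper18.SG.nv (R - Y) μ k0 z0 (y - Y) ≤ μ ∧
      ∀ y' < R, y' ∉ U → y' ≠ y → V y' < V y := by
  obtain ⟨s1, s2⟩ := slope (R := R) (k := z0 - k0) (by omega) (by omega)
  rw [← hq] at s1 s2
  have hq1 : 1 ≤ q := by rw [hq]; exact le_max_left _ _
  -- the sum of the steps of rank `ρ`
  have hF1 : ∀ a b, Y + k0 ≤ a → F r δ ρ a b = 0 := by
    intro a b hab
    unfold F
    rw [filter_false_of_mem]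
    · simp
    · intro t ht
      rw [mem_Ico] at ht
      rw [hr2 t (by omega), hρ]
      omega
  have hF2 : ∀ a b, a + 1 = Y + k0 → 1 ≤ k0 → a < b → F r δ ρ a b = DX R := by
    intro a b hab hk1 hlt
    unfold F
    have e : (Ico a b).filter (fun t => r t = ρ) = {a} := by
      ext t
      rw [mem_filter, mem_Ico, mem_singleton]
      constructor
      · rintro ⟨⟨t1, t2⟩, t3⟩
        rw [hr2 t (by omega), hρ] at t3
        omega
      · intro h
        rw [h]
        refine ⟨⟨le_rfl, hlt⟩, ?_⟩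
        rw [hr2 a (by omega), hρ]
        omega
    rw [e, sum_singleton, hδ a (by omega)]
  -- later rows after the start
  have hlate : ∀ a b, Y + k0 ≤ a → a < b → b < R → V b < V a := by
    intro a b h1 h2 h3
    refine hc a b h2 h3 ?_ ?_
    · rw [hr2 a (by omega), hρ]
      omega
    · rw [hF1 a b h1]
      have : 0 < b - a := by omega
      positivity
  -- early rows
  have hearly : ∀ a b, a < b → b < R → (a + 1 < Y + k0 ∨ (a < Y ∧ k0 = 0)) → V a < V b := by
    intro a b h1 h2 h3
    refine ha a b h1 h2 ?_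
    rcases Nat.lt_or_ge a Y with h4 | h4
    · have := hr1 a h4
      omega
    · rw [hr2 a h4, hρ]
      omega
  unfold Pool.Agent.Helper18.SG.nv at hn ⊢
  rcases Nat.lt_or_ge (y - Y) k0 with h1 | h1
  · rw [if_neg (by omega)] at hn ⊢
    rcases Nat.lt_or_ge (y - Y + 1) k0 with h2 | h2
    · -- far before the start
      rw [if_neg (by omega)] at hn ⊢
      refine ⟨Ioo y R, by simp, ?_, ?_⟩
      · rw [Nat.card_Ioo]
        omega
      · intro y' h5 h6 h7
        rw [mem_Ioo] at h6
        exact hearly y' y (by omega) hy (Or.inl (by omega))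
    · -- the row before the start
      rw [if_pos (by omega)] at hn ⊢
      refine ⟨Ico (Y + k0) (Y + z0), ?_, ?_, ?_⟩
      · rw [mem_Ico]
        omega
      · rw [Nat.card_Ico]
        omega
      · intro y' h5 h6 h7
        rw [mem_Ico] at h6
        rcases lt_or_gt_of_ne h7 with h8 | h8
        · exact hearly y' y h8 hy (Or.inl (by omega))
        · refine hc y y' h8 h5 ?_ ?_
          · rw [hr2 y (by omega), hρ]
            omega
          · rw [hF2 y y' (by omega) (by omega) h8]
            refine lt_of_lt_of_le s2 (Nat.mul_le_mul_left _ ?_)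
            omega
  · rw [if_pos h1] at hn ⊢
    rcases Nat.lt_or_ge (y - Y) z0 with h2 | h2
    · rw [if_neg (by omega)] at hn ⊢
      refine ⟨Ico (Y + k0) y, by simp, ?_, ?_⟩
      · rw [Nat.card_Ico]
        omega
      · intro y' h5 h6 h7
        rw [mem_Ico] at h6
        rcases lt_or_gt_of_ne h7 with h8 | h8
        · rcases Nat.lt_or_ge (y' + 1) (Y + k0) with h9 | h9
          · exact hearly y' y h8 hy (Or.inl h9)
          · rcases Nat.eq_zero_or_pos k0 with h10 | h10
            · exact hearly y' y h8 hy (Or.inr ⟨by omega, h10⟩)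
            · refine hb y' y h8 hy ?_ ?_
              · rw [hr2 y' (by omega), hρ]
                omega
              · rw [hF2 y' y (by omega) h10 h8]
                refine lt_of_le_of_lt (Nat.mul_le_mul_left _ ?_) s1
                omega
        · exact hlate y y' (by omega) h8 h5
    · rw [if_pos h2] at hn ⊢
      refine ⟨Ico (Y + k0 - 1) y, by simp, ?_, ?_⟩
      · rw [Nat.card_Ico]
        omega
      · intro y' h5 h6 h7
        rw [mem_Ico] at h6
        rcases lt_or_gt_of_ne h7 with h8 | h8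
        · exact hearly y' y h8 hy (Or.inl (by omega))
        · exact hlate y y' (by omega) h8 h5

/-- PX. -/
theorem goalPX : GoalPX := by
  intro hPA _ m R Y g N κ x s z hm hmY hY hYR hgN hpl hkx hk2 hsz
  have hk : ∀ y < Y, κ y ≤ g := fun y h => (hkx y h).1
  have hr := rX_mono (Y := Y) (g := g) hpl hk
  obtain ⟨π, ε, H⟩ := hPA R N (rX Y g κ) (dX m R Y g κ x) (kX g s) (sX R g s z) hr
    (by
      intro t
      unfold dX
      split_ifs
      · exact dl_pos t
      · exact DX_pos R)
    (by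
      intro c
      unfold sX
      split_ifs
      · omega
      · exact le_max_left _ _)
  refine ⟨π, ε, ?_⟩
  intro c hc y hy hn
  have Hc := H c hc
  unfold xv at hn ⊢
  rcases Nat.lt_or_ge c g with h1 | h1
  · rw [if_pos h1] at hn ⊢
    have hV : One R (rX Y g κ) (PU m R κ x x 0 0) c 2 (fun z => π z - ε c * z) := by
      have hs : sX R g s z c = 2 * (R + 2) := by unfold sX; rw [if_pos h1]
      have hkk : kX g s c = c := by unfold kX; rw [if_pos h1]
      have hF : ∀ a b, ∑ t ∈ (Ico a b).filter (fun t => rX Y g κ t = c), dX m R Y g κ x t =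
          F (rX Y g κ) (dl R (rX Y g κ) (PU m R κ x x 0 0)) c a b := by
        intro a b
        unfold F
        refine sum_congr rfl fun t ht => ?_
        rw [mem_filter] at ht
        unfold dX
        rw [if_pos]
        by_contra hcon
        have := ht.2
        unfold rX at this
        rw [if_neg hcon] at this
        omega
      rw [hs, hkk] at Hc
      simp only [hF] at Hc
      refine ⟨hr, by omega, ?_, ?_, ?_, ?_⟩
      · intro t ht h2 h3
        have h4 := (rX_ord (t := t + 1) hk hk2 h1).1.1 h3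
        have h5 := (rX_ord (t := t) hk hk2 h1).1.1 h2
        exact drop_ordU hpl ht (by omega) (by omega) (by omega) (by omega)
      · exact fun y z h2 h3 => (Hc y z h2 h3).1
      · exact fun y z h2 h3 => (Hc y z h2 h3).2.1
      · exact fun y z h2 h3 => (Hc y z h2 h3).2.2
    exact pri_ordX hpl hgN hk hk2 h1 hV hy hn
  · rw [if_neg (by omega)] at hn ⊢
    rcases Nat.lt_or_ge y Y with h2 | h2
    · rw [if_pos h2] at hn
      omega
    · rw [if_neg (by omega)] at hn ⊢
      obtain ⟨z1, z2, z3⟩ := hsz (c - g) (by omega)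
      refine pri_secX (V := fun z => π z - ε c * z) (r := rX Y g κ) (δ := dX m R Y g κ x)
        (g := g) (ρ := kX g s c) (q := sX R g s z c) hY hr ?_ ?_ ?_ ?_ z1 z2 z3 ?_ ?_ ?_ ?_ hy h2 hn
      · intro t ht
        unfold rX
        rw [if_pos ht]
        exact hk t ht
      · intro t ht
        unfold rX
        rw [if_neg (by omega)]
      · intro t ht
        unfold dX
        rw [if_neg (by omega)]
      · unfold kX
        rw [if_neg (by omega)]
      · unfold sX
        rw [if_neg (by omega)]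
      · exact fun y z h2 h3 => (Hc y z h2 h3).1
      · exact fun y z h2 h3 => (Hc y z h2 h3).2.1
      · exact fun y z h2 h3 => (Hc y z h2 h3).2.2

end Pool.Agent.Helper12.UN
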