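import Mathlib
import Pool.Agent.Helper43.UN.GoalsR
import Pool.Agent.Helper87.UW.R1

/-!
# UN packet R1n (MP_d3128a_ag)
-/

set_option autoImplicit false

namespace Pool.Agent.Helper12.UN

open Finset
open Pool.Agent.Helper43.Hw (T na va lz Play aa ac sc oo sk U Dd Sd T_zero T_succ T_mono two_T)
open Pool.Agent.Helper43.Gm (st mv nn)
open Pool.Agent.Helper18.UW (Par4 UPlay uz UPre uo us GoalU1 GoalU4 GoalUC)
open Pool.Agent.Helper43.UN (Pf Sg GoalR1n)
open Pool.Agent.Helper87.UW (va_congr uz_congr uo_congr us_congr uz0 fill tail_sum)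

/-! ### the profile -/

theorem pf_step {M Mb R A E0 : ℕ} {ℓ : ℕ → ℕ} (P : Pf M Mb R A E0 ℓ) {y : ℕ}
    (hy : y + E0 < R) (hR : y + 1 < R) : ℓ y ≤ ℓ (y + 1) := by
  rcases P.up y hR with h | h | h
  · omega
  · exact h.2
  · omega

theorem pf_mono {M Mb R A E0 : ℕ} {ℓ : ℕ → ℕ} (P : Pf M Mb R A E0 ℓ) {y z : ℕ}
    (hyz : y ≤ z) (hz : z + E0 ≤ R) : ℓ y ≤ ℓ z := by
  have hM := P.M1
  have hE := P.E1
  induction z, hyz using Nat.le_induction with
  | base => exact le_rfl
  | succ z hyz ih => exact (ih (by omega)).trans (pf_step P (by omega) (by omega))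

/-- the last rows are long -/
theorem pf_last {M Mb R A E0 : ℕ} {ℓ : ℕ → ℕ} (P : Pf M Mb R A E0 ℓ) {r n : ℕ}
    (hr : R ≤ r + E0) (hn : r + n ≤ R) :
    n * (99 * A) ≤ 100 * ∑ z ∈ Ico r R, ℓ z := by
  calc n * (99 * A) = ∑ z ∈ Ico r (r + n), 99 * A := by
        rw [sum_const, Nat.card_Ico, smul_eq_mul]
        congr 1
        omega
    _ ≤ ∑ z ∈ Ico r (r + n), 100 * ℓ z := sum_le_sum (fun z hz => by
        rw [mem_Ico] at hz
        exact P.fl z (by omega) (by omega))
    _ ≤ ∑ z ∈ Ico r R, 100 * ℓ z :=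
        sum_le_sum_of_subset (fun z hz => by rw [mem_Ico] at hz ⊢; omega)
    _ = 100 * ∑ z ∈ Ico r R, ℓ z := by rw [mul_sum]

/-! ### the points -/

section
variable {m : ℕ → ℕ} {M Mb μ R A E0 N00 N0 N : ℕ} {ℓ : ℕ → ℕ} {Z : ℤ}

theorem mMb (S : Sg m M Mb μ R A E0 N00 N0 N ℓ Z) : ∀ c < N, 1 ≤ m c ∧ m c ≤ Mb := by
  intro c hc
  have h1 := S.pf.MMb
  have h2 := S.μM
  rcases Nat.lt_or_ge c N00 with h | h
  · exact S.pre0 c h
  · rcases Nat.lt_or_ge c N0 with h' | h'
    · have := S.pre c h h'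
      omega
    · have := S.main c h' hc
      omega

theorem mM (S : Sg m M Mb μ R A E0 N00 N0 N ℓ Z) : ∀ c, N00 ≤ c → c < N → m c ≤ M := by
  intro c h hc
  have h2 := S.μM
  rcases Nat.lt_or_ge c N0 with h' | h'
  · exact (S.pre c h h').2
  · have := S.main c h' hc
    omega

theorem m2 (S : Sg m M Mb μ R A E0 N00 N0 N ℓ Z) : ∀ c < N, 1 ≤ m c ∧ m c + 2 ≤ R := by
  intro c hc
  have h := mMb S c hc
  have h1 := S.pf.RE
  omega

end

theorem va_le {μ R : ℕ} {κ x : ℕ → ℕ} {c y : ℕ} (h : c < κ y) : va μ R κ x c y ≤ μ := by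
  unfold va nn
  rw [if_neg (by omega), if_neg (by omega), if_neg (by omega)]
  exact (Nat.sub_le _ _).trans (Nat.sub_le _ _)

theorem va_eq {μ R : ℕ} {κ x : ℕ → ℕ} {y : ℕ} : va μ R κ x (κ y) y = x y := by
  unfold va nn
  rw [if_neg (by omega), if_neg (by omega), if_pos rfl]

/-- a point which is old at `Y0` is dead at `Y0 + m c` -/
theorem dead (h1 : GoalU1) {m : ℕ → ℕ} {R N : ℕ} {κ x : ℕ → ℕ}
    (hm2 : ∀ c < N, 1 ≤ m c ∧ m c + 2 ≤ R) (hR : 2 ≤ R) (hP : UPlay m R N κ x)
    {c Y0 y : ℕ} (hY : Y0 < R) (hc : c < κ Y0) (hcN : c < N) (hy : Y0 + m c ≤ y) (hyR : y < R) :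
    va (m c) R κ x c y = 0 := by
  obtain ⟨a1, a2, a3, a4, a5, a6, a7, a8, a9⟩ := h1 m R N κ x hm2 hR hP
  have b1 := (a1 c Y0 hY).1
  have b2 : sc R κ c ≤ Y0 := by
    by_contra hcon
    have := b1.2 (by omega)
    omega
  have b3 := a3 c
  have hcy : c < κ y := by
    have b5 := (a1 c y hyR).1
    by_contra hcon
    have := b5.1 (by omega)
    omega
  have b4 := (a6 y hyR c hcy).2.2.2
  by_contra hcon
  have := b4.1 (Nat.pos_of_ne_zero hcon)
  omega

/-- the threshold -/
theorem thr (h1 : GoalU1) {m : ℕ → ℕ} {R N : ℕ} {κ x ℓ : ℕ → ℕ}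
    (hm2 : ∀ c < N, 1 ≤ m c ∧ m c + 2 ≤ R) (hR : 2 ≤ R) (hP : UPlay m R N κ x)
    {Y0 N' : ℕ} (hY : Y0 < R) (hN : N' ≤ N)
    (hna : ∀ c, N' ≤ c → c < N → ∀ z < Y0, na (m c) R z = 0)
    (hex : ∀ z < Y0, uz m R N κ x z = ℓ z)
    (hpa : ∑ c ∈ range N', T (m c) < ∑ z ∈ range Y0, ℓ z) : N' ≤ κ Y0 := by
  obtain ⟨a1, a2, a3, a4, a5, a6, a7, a8, a9⟩ := h1 m R N κ x hm2 hR hP
  by_contra hcon
  have hmono : ∀ z ≤ Y0, κ z ≤ κ Y0 := by
    intro z hz
    by_contra hlt
    have b1 := (a1 (κ Y0) Y0 hY).1.1 le_rfl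
    have b2 := (a1 (κ Y0) z (by omega)).1.2 (by omega)
    omega
  have c1 : ∑ z ∈ range Y0, ℓ z =
      ∑ z ∈ range Y0, ∑ c ∈ range N', va (m c) R κ x c z := by
    apply sum_congr rfl
    intro z hz'
    have hz2 := mem_range.1 hz'
    rw [← hex z hz2]
    unfold uz
    symm
    apply sum_subset
    · intro c hc'
      rw [mem_range] at hc' ⊢
      exact lt_of_lt_of_le hc' hN
    · intro c hc1 hc2
      rw [mem_range] at hc1 hc2
      have d2 := hmono z (by omega)
      unfold va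
      rw [if_pos (by omega)]
      exact hna c (by omega) hc1 z hz2
  have c2 : ∑ z ∈ range Y0, ∑ c ∈ range N', va (m c) R κ x c z ≤
      ∑ c ∈ range N', T (m c) := by
    rw [sum_comm]
    apply sum_le_sum
    intro c hc'
    rw [← a8 c (lt_of_lt_of_le (mem_range.1 hc') hN)]
    apply sum_le_sum_of_subset
    intro z hz'
    rw [mem_range] at hz' ⊢
    omega
  omega

/-- the load is at most the values of the old points and the moving one -/
theorem load_split {m : ℕ → ℕ} {R N : ℕ} {κ x : ℕ → ℕ} {y : ℕ} (hκ : κ y < N)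
    (hnat : ∀ c, κ y ≤ c → c < N → na (m c) R y = 0) :
    uz m R N κ x y = ∑ c ∈ range (κ y), va (m c) R κ x c y + x y := by
  have h1 : ∑ c ∈ range (κ y + 1), va (m c) R κ x c y = ∑ c ∈ range N, va (m c) R κ x c y := by
    apply sum_subset
    · intro c hc
      rw [mem_range] at hc ⊢
      omega
    · intro c hc hc2
      rw [mem_range] at hc hc2
      unfold va
      rw [if_pos (by omega)]
      exact hnat c (by omega) hc
  unfold uz
  rw [← h1, sum_range_succ, va_eq]

/-- the number of the old points alive bounds the sum of their values -/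
theorem old_le {m : ℕ → ℕ} {R : ℕ} {κ x : ℕ → ℕ} {y B : ℕ}
    (hB : ∀ c < κ y, va (m c) R κ x c y ≤ B) :
    ∑ c ∈ range (κ y), va (m c) R κ x c y ≤ uo m R κ x y * B := by
  unfold uo
  calc ∑ c ∈ range (κ y), va (m c) R κ x c y
      = ∑ c ∈ (range (κ y)).filter (fun c => 0 < va (m c) R κ x c y), va (m c) R κ x c y := by
        symm
        apply sum_subset (filter_subset _ _)
        intro c hc hc2
        by_contra hcon
        exact hc2 (mem_filter.2 ⟨hc, Nat.pos_of_ne_zero hcon⟩)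
    _ ≤ ∑ c ∈ (range (κ y)).filter (fun c => 0 < va (m c) R κ x c y), B :=
        sum_le_sum (fun c hc => hB c (mem_range.1 (mem_filter.1 hc).1))
    _ = _ := by rw [sum_const, smul_eq_mul]

/-- the number of conditions needed grows -/
theorem need (h1 : GoalU1) {m : ℕ → ℕ} {M Mb μ R A E0 N00 N0 N : ℕ} {ℓ : ℕ → ℕ} {Z : ℤ}
    (S : Sg m M Mb μ R A E0 N00 N0 N ℓ Z) {κ x : ℕ → ℕ} (hP : UPlay m R N κ x) {y : ℕ}
    (hy : y + 1 < R) (hκ : κ y < N)
    (hnat : ∀ c, κ y ≤ c → c < N → na (m c) R y = 0) (hex : uz m R N κ x y = ℓ y)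
    (hN00 : R - E0 - 2 * Mb ≤ y → N00 ≤ κ (R - E0 - 2 * Mb)) :
    ℓ y + 1 ≤ uo m R κ x y + ℓ (y + 1) := by
  have P := S.pf
  have p1 := P.M1
  have p2 := P.MMb
  have p3 := P.E1
  have p4 := P.RE
  have p5 := P.A1
  have hx : x y < m (κ y) := hP.lt y hy hκ
  have hsp := load_split (x := x) hκ hnat
  rw [hex] at hsp
  rcases P.up y hy with h | ⟨h, h'⟩ | ⟨h, h'⟩
  · omega
  · have b1 := old_le (m := m) (R := R) (κ := κ) (x := x) (y := y) (B := Mb) (fun c hc =>
      (va_le hc).trans (mMb S c (by omega)).2)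
    have b2 := (mMb S (κ y) hκ).2
    rcases Nat.eq_zero_or_pos (uo m R κ x y) with h0 | h0
    · rw [h0, zero_mul] at b1
      omega
    · omega
  · have q0 := hN00 (by omega)
    have hκm : κ (R - E0 - 2 * Mb) ≤ κ y := by
      have : ∀ z, R - E0 - 2 * Mb ≤ z → z < R → κ (R - E0 - 2 * Mb) ≤ κ z := by
        intro z hz
        induction z, hz using Nat.le_induction with
        | base => intro _; exact le_rfl
        | succ z hz ih => intro hzR; exact (ih (by omega)).trans (hP.mono z hzR)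
      exact this y (by omega) (by omega)
    have b1 := old_le (m := m) (R := R) (κ := κ) (x := x) (y := y) (B := M) (fun c hc => by
      rcases Nat.lt_or_ge c N00 with hc0 | hc0
      · have hm := (mMb S c (by omega)).2
        rw [dead h1 (m2 S) (by omega) hP (Y0 := R - E0 - 2 * Mb) (by omega) (by omega)
          (by omega) (by omega) (by omega)]
        exact Nat.zero_le _
      · exact (va_le hc).trans (mM S c hc0 (by omega)))
    have b2 := mM S (κ y) (by omega) hκ
    have b3 := P.fl y h (by omega)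
    have b4 : 3 * M ≤ ℓ y := by omega
    rcases Nat.lt_or_ge (uo m R κ x y) 2 with h0 | h0
    · have b5 : uo m R κ x y * M ≤ 1 * M := Nat.mul_le_mul_right _ (by omega)
      omega
    · omega

/-- the points suffice -/
theorem insuff (h1 : GoalU1) {m : ℕ → ℕ} {M Mb μ R A E0 N00 N0 N : ℕ} {ℓ : ℕ → ℕ} {Z : ℤ}
    (S : Sg m M Mb μ R A E0 N00 N0 N ℓ Z) {κ x : ℕ → ℕ} {r : ℕ}
    (hP : UPlay m R N κ x) (hr : r + 1 + μ ≤ R) (hex : ∀ z < r, uz m R N κ x z = ℓ z)
    (hle : uz m R N κ x r ≤ ℓ r) (hκ : κ r = N)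
    (hN0 : R ≤ r + 59 * M → N0 ≤ κ (R - 60 * M))
    (hN00 : R ≤ r + E0 + Mb → N00 ≤ κ (R - E0 - 2 * Mb)) : False := by
  have P := S.pf
  have p1 := P.M1
  have p2 := P.MMb
  have p3 := P.E1
  have p4 := P.RE
  have p5 := P.A1
  have p6 := P.R1
  have s1 := S.μ1
  have s2 := S.μM
  have hm := mMb S
  have hm2 := m2 S
  obtain ⟨a1, a2, a3, a4, a5, a6, a7, a8, a9⟩ := h1 m R N κ x hm2 (by omega) hP
  have hκy : ∀ y, r ≤ y → y < R → κ y = N := by
    intro y hy
    induction y, hy using Nat.le_induction with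
    | base => intro _; exact hκ
    | succ y hy ih =>
      intro hyR
      have b1 := ih (by omega)
      have b2 := hP.mono y hyR
      have b3 := hP.le (y + 1) hyR
      omega
  -- the tail
  have htail : ∀ c < N, ∑ z ∈ Ico r R, va (m c) R κ x c z ≤ T (va (m c) R κ x c r) := by
    intro c hc
    apply tail_sum (r := r) (fun y hy hyR => ?_) (R - 1 - r) r le_rfl (by omega)
    have b1 := a7 y hyR c (by rw [hκy y hy (by omega)]; exact hc)
    rcases Nat.eq_zero_or_pos (va (m c) R κ x c y) with h0 | h0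
    · rw [(b1.2 h0).1]; omega
    · have := b1.1 h0
      omega
  have hvm : ∀ c < N, va (m c) R κ x c r ≤ m c := fun c hc => va_le (by rw [hκ]; exact hc)
  have htot : ∑ c ∈ range N, T (m c) = ∑ z ∈ range r, ℓ z +
      ∑ z ∈ Ico r R, uz m R N κ x z := by
    rw [← a9, ← sum_range_add_sum_Ico _ (show r ≤ R by omega)]
    congr 1
    exact sum_congr rfl (fun z hz => hex z (mem_range.1 hz))
  have hB : ∃ B, (∀ c < N, 2 * T (va (m c) R κ x c r) ≤ (B + 1) * va (m c) R κ x c r) ∧
      ((B = Mb ∧ r + E0 + Mb < R) ∨ (B = M ∧ R ≤ r + E0 + Mb ∧ r + 59 * M < R) ∨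
        (B = μ ∧ R ≤ r + 59 * M)) := by
    have hval : ∀ B c, va (m c) R κ x c r ≤ B →
        2 * T (va (m c) R κ x c r) ≤ (B + 1) * va (m c) R κ x c r := by
      intro B c h
      rw [two_T, mul_comm]
      exact Nat.mul_le_mul_right _ (by omega)
    rcases Nat.lt_or_ge (r + E0 + Mb) R with h | h
    · exact ⟨Mb, fun c hc => hval _ _ ((hvm c hc).trans (hm c hc).2), Or.inl ⟨rfl, h⟩⟩
    · have q0 := hN00 h
      have hu : ∀ c < N00, va (m c) R κ x c r = 0 := by
        intro c hc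
        have hcN : c < N := by
          have := S.N0a
          have := S.N0b
          omega
        have hm := (hm c hcN).2
        exact dead h1 hm2 (by omega) hP (Y0 := R - E0 - 2 * Mb) (by omega) (by omega)
          (by omega) (by omega) (by omega)
      rcases Nat.lt_or_ge (r + 59 * M) R with h' | h'
      · refine ⟨M, fun c hc => hval _ _ ?_, Or.inr (Or.inl ⟨rfl, h, h'⟩)⟩
        rcases Nat.lt_or_ge c N00 with hc0 | hc0
        · rw [hu c hc0]
          exact Nat.zero_le _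
        · exact (hvm c hc).trans (mM S c hc0 hc)
      · refine ⟨μ, fun c hc => hval _ _ ?_, Or.inr (Or.inr ⟨rfl, h'⟩)⟩
        rcases Nat.lt_or_ge c N00 with hc0 | hc0
        · rw [hu c hc0]
          exact Nat.zero_le _
        · rcases Nat.lt_or_ge c N0 with hc1 | hc1
          · have q1 := hN0 h'
            have hm := mM S c hc0 hc
            rw [dead h1 hm2 (by omega) hP (Y0 := R - 60 * M) (by omega) (by omega)
              (by omega) (by omega) (by omega)]
            exact Nat.zero_le _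
          · exact (hvm c hc).trans (S.main c hc1 hc).2
  obtain ⟨B, hB1, hB2⟩ := hB
  -- the tail of the loads
  have hT1 : 2 * ∑ z ∈ Ico r R, uz m R N κ x z ≤ (B + 1) * ℓ r := by
    calc 2 * ∑ z ∈ Ico r R, uz m R N κ x z
        = 2 * ∑ c ∈ range N, ∑ z ∈ Ico r R, va (m c) R κ x c z := by
          unfold uz
          rw [sum_comm]
      _ ≤ 2 * ∑ c ∈ range N, T (va (m c) R κ x c r) :=
          Nat.mul_le_mul_left _ (sum_le_sum (fun c hc => htail c (mem_range.1 hc)))
      _ = ∑ c ∈ range N, 2 * T (va (m c) R κ x c r) := by rw [mul_sum]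
      _ ≤ ∑ c ∈ range N, (B + 1) * va (m c) R κ x c r :=
          sum_le_sum (fun c hc => hB1 c (mem_range.1 hc))
      _ = (B + 1) * uz m R N κ x r := by unfold uz; rw [mul_sum]
      _ ≤ (B + 1) * ℓ r := Nat.mul_le_mul_left _ hle
  have hLs : ∑ z ∈ range R, ℓ z = ∑ z ∈ range r, ℓ z + ∑ z ∈ Ico r R, ℓ z :=
    (sum_range_add_sum_Ico _ (show r ≤ R by omega)).symm
  have hmain : 4 * ∑ z ∈ Ico r R, ℓ z ≤ 2 * ((B + 1) * ℓ r) + μ * A := by
    have t := S.tot
    have hZ := S.Zs
    have hZ1 : Z ≤ |Z| := le_abs_self Z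
    have e1 : ∑ z ∈ range R, (ℓ z : ℤ) = ((∑ z ∈ range R, ℓ z : ℕ) : ℤ) := by push_cast; rfl
    have e2 : ∑ c ∈ range N, (T (m c) : ℤ) = ((∑ c ∈ range N, T (m c) : ℕ) : ℤ) := by
      push_cast; rfl
    rw [e1, e2] at t
    have e3 : (μ : ℤ) * A = ((μ * A : ℕ) : ℤ) := by push_cast; rfl
    rw [e3] at hZ
    omega
  have hA0 : 1 ≤ A := by omega
  have hlr : ℓ r ≤ A := P.le r (by omega)
  have hMA : A ≤ M * A := Nat.le_mul_of_pos_left _ p1
  have hμA : μ * A ≤ M * A := Nat.mul_le_mul_right _ s2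
  -- the last rows
  rcases hB2 with ⟨hBM, h59⟩ | ⟨hBM, h58, h59⟩ | ⟨hBM, h59⟩
  · -- `r + E0 + Mb < R`
    rw [hBM] at hmain
    have c1 : (Mb + 1) * ℓ r ≤ ∑ z ∈ Ico r (r + Mb + 1), ℓ z := by
      calc (Mb + 1) * ℓ r = ∑ z ∈ Ico r (r + Mb + 1), ℓ r := by
            rw [sum_const, Nat.card_Ico, smul_eq_mul]
            congr 1
            omega
        _ ≤ ∑ z ∈ Ico r (r + Mb + 1), ℓ z := sum_le_sum (fun z hz => by
            rw [mem_Ico] at hz
            exact pf_mono P hz.1 (by omega))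
    have c2 := pf_last P (r := R - 59 * M) (n := 59 * M) (by omega) (by omega)
    have c3 : ∑ z ∈ Ico r (r + Mb + 1), ℓ z + ∑ z ∈ Ico (R - 59 * M) R, ℓ z ≤
        ∑ z ∈ Ico r R, ℓ z := by
      rw [← sum_union (by
        rw [disjoint_left]
        intro z hz1 hz2
        rw [mem_Ico] at hz1 hz2
        omega)]
      apply sum_le_sum_of_subset
      intro z hz
      rw [mem_union, mem_Ico, mem_Ico] at hz
      rw [mem_Ico]
      omega
    have e : 59 * M * (99 * A) = 5841 * (M * A) := by ring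
    rw [e] at c2
    omega
  · -- `R - E0 - Mb ≤ r < R - 59 M`
    rw [hBM] at hmain
    have c2 := pf_last P (r := R - 59 * M) (n := 59 * M) (by omega) (by omega)
    have c3 : ∑ z ∈ Ico (R - 59 * M) R, ℓ z ≤ ∑ z ∈ Ico r R, ℓ z := by
      apply sum_le_sum_of_subset
      intro z hz
      rw [mem_Ico] at hz ⊢
      omega
    have e : 59 * M * (99 * A) = 5841 * (M * A) := by ring
    rw [e] at c2
    have c4 : (M + 1) * ℓ r ≤ (M + 1) * A := Nat.mul_le_mul_left _ hlr
    have c5 : (M + 1) * A = M * A + A := by ring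
    omega
  · -- `R - 59 M ≤ r`
    rw [hBM] at hmain
    have c2 := pf_last P (r := r) (n := μ + 1) (by omega) (by omega)
    have c4 : (μ + 1) * ℓ r ≤ (μ + 1) * A := Nat.mul_le_mul_left _ hlr
    have c5 : (μ + 1) * A = μ * A + A := by ring
    have c6 : (μ + 1) * (99 * A) = 99 * (μ * A) + 99 * A := by ring
    rw [c6] at c2
    omega

/-- one step of the construction -/
theorem stepR (h1 : GoalU1) (h4 : GoalU4) (hc : GoalUC) {m : ℕ → ℕ}
    {M Mb μ R A E0 N00 N0 N : ℕ} {ℓ : ℕ → ℕ} {Z : ℤ}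
    (S : Sg m M Mb μ R A E0 N00 N0 N ℓ Z) (y : ℕ)
    (hy : y + 1 + 1 + μ ≤ R) {κ x : ℕ → ℕ} (hU : UPre m R N y κ x)
    (hex : ∀ z ≤ y, uz m R N κ x z = ℓ z) (hκ : κ y < N)
    (hN0 : R - 60 * M ≤ y → N0 ≤ κ (R - 60 * M))
    (hN00 : R - E0 - 2 * Mb ≤ y → N00 ≤ κ (R - E0 - 2 * Mb)) :
    ∃ κ' x' : ℕ → ℕ, UPre m R N (y + 1) κ' x' ∧
      (∀ z ≤ y + 1, uz m R N κ' x' z = ℓ z) ∧ κ' (y + 1) < N ∧
      (R - 60 * M ≤ y + 1 → N0 ≤ κ' (R - 60 * M)) ∧
      (R - E0 - 2 * Mb ≤ y + 1 → N00 ≤ κ' (R - E0 - 2 * Mb)) := by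
  have P := S.pf
  have p1 := P.M1
  have p2 := P.MMb
  have p3 := P.E1
  have p4 := P.RE
  have p5 := P.A1
  have p6 := P.R1
  have s1 := S.μ1
  have s2 := S.μM
  have hm := mMb S
  have hm2 := m2 S
  -- the modified beginning
  obtain ⟨κm, hκm⟩ : ∃ f : ℕ → ℕ → ℕ, ∀ k t, f k t = if t ≤ y then κ t else k :=
    ⟨fun k t => if t ≤ y then κ t else k, fun _ _ => rfl⟩
  obtain ⟨xm, hxm⟩ : ∃ f : ℕ → ℕ → ℕ, ∀ k t, f k t = if t ≤ y then x t else k :=
    ⟨fun k t => if t ≤ y then x t else k, fun _ _ => rfl⟩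
  have hag : ∀ k w, ∀ t ≤ y, κm k t = κ t ∧ xm w t = x t := by
    intro k w t ht
    rw [hκm, hxm, if_pos ht, if_pos ht]
    exact ⟨rfl, rfl⟩
  have hnew : ∀ k w, κm k (y + 1) = k ∧ xm w (y + 1) = w := by
    intro k w
    rw [hκm, hxm, if_neg (by omega), if_neg (by omega)]
    exact ⟨rfl, rfl⟩
  have hmono : ∀ a, ∀ b ≤ y, a ≤ b → κ a ≤ κ b := by
    intro a b hb hab
    induction b, hab using Nat.le_induction with
    | base => exact le_rfl
    | succ b hab ih =>
      exact (ih (by omega)).trans (hU.mono b (by omega))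
  have hna : ∀ c, κ y ≤ c → c < N → na (m c) R (y + 1) = 0 := by
    intro c hc1 hc2
    unfold na
    rcases Nat.lt_or_ge y (R - E0 - 2 * Mb) with h | h
    · have := (hm c hc2).2
      omega
    · have b1 := hN00 h
      have b2 := hmono (R - E0 - 2 * Mb) y le_rfl h
      rcases Nat.lt_or_ge y (R - 60 * M) with h' | h'
      · have := mM S c (by omega) hc2
        omega
      · have b3 := hN0 h'
        have b4 := hmono (R - 60 * M) y le_rfl h'
        have := (S.main c (by omega) hc2).2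
        omega
  have hpre : ∀ k w, κ y ≤ k → k ≤ N → (k < N → w < m k) → (k = N → w = 0) →
      (k = κ y → x y < w) → UPre m R N (y + 1) (κm k) (xm w) := by
    intro k w k1 k2 k3 k4 k5
    refine ⟨?_, ?_, ?_, ?_, ?_, ?_⟩
    · intro t ht
      rw [(hag k w t (by omega)).1]
      rcases Nat.lt_or_ge t y with h | h
      · rw [(hag k w (t + 1) (by omega)).1]
        exact hU.mono t h
      · have : t = y := by omega
        rw [this, (hnew k w).1]
        exact k1
    · intro t ht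
      rcases Nat.lt_or_ge y t with h | h
      · have : t = y + 1 := by omega
        rw [this, (hnew k w).1]
        exact k2
      · rw [(hag k w t h).1]
        exact hU.le t h
    · intro t ht
      rcases Nat.lt_or_ge y t with h | h
      · have : t = y + 1 := by omega
        rw [this, (hnew k w).1, (hnew k w).2]
        exact k3
      · rw [(hag k w t h).1, (hag k w t h).2]
        exact hU.lt t h
    · intro t ht
      rcases Nat.lt_or_ge y t with h | h
      · have : t = y + 1 := by omega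
        rw [this, (hnew k w).1]
        intro c c1 c2
        exact hna c (by omega) c2
      · rw [(hag k w t h).1]
        exact hU.nat t h
    · intro t ht
      rcases Nat.lt_or_ge y t with h | h
      · have : t = y + 1 := by omega
        rw [this, (hnew k w).1, (hnew k w).2]
        exact k4
      · rw [(hag k w t h).1, (hag k w t h).2]
        exact hU.fin t h
    · intro t ht
      rw [(hag k w t (by omega)).1, (hag k w t (by omega)).2]
      rcases Nat.lt_or_ge t y with h | h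
      · rw [(hag k w (t + 1) (by omega)).1, (hag k w (t + 1) (by omega)).2]
        exact hU.inc t h
      · have : t = y := by omega
        rw [this, (hnew k w).1, (hnew k w).2]
        exact fun _ => k5
  -- the load of the new row
  obtain ⟨S0, hS0⟩ : ∃ S0, S0 = ∑ c ∈ range (κ y), m c + x y + uo m R κ x y + us m κ x y :=
    ⟨_, rfl⟩
  have hload : ∀ k w, UPre m R N (y + 1) (κm k) (xm w) →
      uz m R N (κm k) (xm w) (y + 1) + S0 = ℓ y + (∑ c ∈ range k, m c + w) := by
    intro k w hk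
    obtain ⟨κ3, x3, hp3, hag3, huz3⟩ := hc m R N (y + 1) (κm k) (xm w) hm2 (by omega) hk
    have b0 : ∀ t ≤ y, κ3 t = κ t ∧ x3 t = x t := by
      intro t ht
      have e1 := hag3 t (by omega)
      have e2 := hag k w t ht
      exact ⟨e1.1.trans e2.1, e1.2.trans e2.2⟩
    have b1 := h4 m R N κ3 x3 hm2 (by omega) hp3 y (by omega) (by
      rw [(b0 y le_rfl).1]
      exact hna)
    rw [uo_congr b0, us_congr b0, uz_congr b0, hex y le_rfl, (b0 y le_rfl).1, (b0 y le_rfl).2,
      (hag3 (y + 1) le_rfl).1, (hag3 (y + 1) le_rfl).2, (hnew k w).1, (hnew k w).2,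
      huz3 (y + 1) le_rfl] at b1
    omega
  have hexm : ∀ k w, ∀ z ≤ y, uz m R N (κm k) (xm w) z = ℓ z := by
    intro k w z hz
    rw [uz_congr (fun t ht => hag k w t (by omega))]
    exact hex z hz
  -- the number of conditions needed
  have hneed : ℓ y + 1 ≤ uo m R κ x y + ℓ (y + 1) := by
    obtain ⟨κ3, x3, hp3, hag3, huz3⟩ := hc m R N y κ x hm2 (by omega) hU
    have b1 := need h1 S hp3 (y := y) (by omega) (by rw [(hag3 y le_rfl).1]; exact hκ)
      (by
        intro c hc1 hc2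
        rw [(hag3 y le_rfl).1] at hc1
        exact hU.nat y le_rfl c hc1 hc2)
      (by rw [huz3 y le_rfl]; exact hex y le_rfl)
      (by
        intro h
        rw [(hag3 _ h).1]
        exact hN00 h)
    rw [uo_congr (fun t ht => hag3 t ht)] at b1
    exact b1
  obtain ⟨Q, hQ⟩ : ∃ Q, Q + ℓ y = S0 + ℓ (y + 1) := ⟨S0 + ℓ (y + 1) - ℓ y, by omega⟩
  rcases Nat.lt_or_ge Q (∑ c ∈ range N, m c) with hlt | hge
  · obtain ⟨k, k1, k2, k3, k4⟩ := fill (a := κ y) hlt (by omega)
    have hUk := hpre k (Q - ∑ c ∈ range k, m c) k1 (by omega) (by omega) (by omega) (by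
      intro hk
      rw [hk]
      omega)
    have hl := hload k _ hUk
    have hall : ∀ z ≤ y + 1, uz m R N (κm k) (xm (Q - ∑ c ∈ range k, m c)) z = ℓ z := by
      intro z hz
      rcases Nat.lt_or_ge y z with h | h
      · have : z = y + 1 := by omega
        rw [this]
        omega
      · exact hexm k _ z h
    -- thresholds
    obtain ⟨κ3, x3, hp3, hag3, huz3⟩ := hc m R N (y + 1) (κm k) _ hm2 (by omega) hUk
    refine ⟨κm k, xm (Q - ∑ c ∈ range k, m c), hUk, hall, by rw [(hnew k 0).1]; exact k2, ?_, ?_⟩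
    · intro hz
      rcases Nat.lt_or_ge y (R - 60 * M) with h | h
      · have hzy : R - 60 * M = y + 1 := by omega
        have := thr h1 hm2 (by omega) hp3 (ℓ := ℓ) (Y0 := R - 60 * M) (N' := N0) (by omega) S.N0b
          (by
            intro c hc1 hc2 z hz1
            have := (S.main c hc1 hc2).2
            unfold na
            omega)
          (by
            intro z hz1
            rw [huz3 z (by omega)]
            exact hall z (by omega))
          S.pa
        rw [(hag3 _ (by omega)).1] at this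
        exact this
      · rw [(hag k 0 (R - 60 * M) h).1]
        exact hN0 h
    · intro hz
      rcases Nat.lt_or_ge y (R - E0 - 2 * Mb) with h | h
      · have hzy : R - E0 - 2 * Mb = y + 1 := by omega
        have := thr h1 hm2 (by omega) hp3 (ℓ := ℓ) (Y0 := R - E0 - 2 * Mb) (N' := N00) (by omega)
          (by have := S.N0a; have := S.N0b; omega)
          (by
            intro c hc1 hc2 z hz1
            have := (hm c hc2).2
            unfold na
            omega)
          (by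
            intro z hz1
            rw [huz3 z (by omega)]
            exact hall z (by omega))
          S.pa0
        rw [(hag3 _ (by omega)).1] at this
        exact this
      · rw [(hag k 0 (R - E0 - 2 * Mb) h).1]
        exact hN00 h
  · exfalso
    have hUk := hpre N 0 hκ.le le_rfl (by omega) (fun _ => rfl) (by omega)
    have hl := hload N _ hUk
    obtain ⟨κ3, x3, hp3, hag3, huz3⟩ := hc m R N (y + 1) (κm N) _ hm2 (by omega) hUk
    refine insuff h1 S (r := y + 1) hp3 (by omega) ?_ ?_ ?_ ?_ ?_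
    · intro z hz
      rw [huz3 z (by omega)]
      exact hexm N 0 z (by omega)
    · rw [huz3 (y + 1) le_rfl]
      omega
    · rw [(hag3 (y + 1) le_rfl).1, (hnew N 0).1]
    · intro h59
      have hle : R - 60 * M ≤ y := by omega
      rw [(hag3 (R - 60 * M) (by omega)).1, (hag N 0 _ hle).1]
      exact hN0 hle
    · intro h59
      have hle : R - E0 - 2 * Mb ≤ y := by omega
      rw [(hag3 (R - E0 - 2 * Mb) (by omega)).1, (hag N 0 _ hle).1]
      exact hN00 hle

/-- packet R1n -/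
theorem goalR1n (h1 : GoalU1) (h4 : GoalU4) (hc : GoalUC) : GoalR1n := by
  intro m M Mb μ R A E0 N00 N0 N ℓ Z S
  have P := S.pf
  have p1 := P.M1
  have p2 := P.MMb
  have p3 := P.E1
  have p4 := P.RE
  have p5 := P.A1
  have p6 := P.R1
  have s1 := S.μ1
  have s2 := S.μM
  have hm := mMb S
  have hm2 := m2 S
  -- the row 0
  have hpre0 : ∀ k w, k ≤ N → (k < N → w < m k) → (k = N → w = 0) →
      UPre m R N 0 (fun _ => k) (fun _ => w) := by
    intro k w k2 k3 k4
    refine ⟨?_, ?_, ?_, ?_, ?_, ?_⟩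
    · intro t ht
      omega
    · intro t _
      exact k2
    · intro t _
      exact k3
    · intro t ht c _ hc'
      unfold na
      have := (hm2 c hc').2
      omega
    · intro t _
      exact k4
    · intro t ht
      omega
  have hstart : ∃ κ x : ℕ → ℕ, UPre m R N 0 κ x ∧ (∀ z ≤ 0, uz m R N κ x z = ℓ z) ∧
      κ 0 < N ∧ (R - 60 * M ≤ 0 → N0 ≤ κ (R - 60 * M)) ∧
      (R - E0 - 2 * Mb ≤ 0 → N00 ≤ κ (R - E0 - 2 * Mb)) := by
    rcases Nat.lt_or_ge (ℓ 0) (∑ c ∈ range N, m c) with hlt | hge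
    · obtain ⟨k, k1, k2, k3, k4⟩ := fill (a := 0) hlt (by simp)
      have hUk := hpre0 k (ℓ 0 - ∑ c ∈ range k, m c) (by omega) (by omega) (by omega)
      refine ⟨_, _, hUk, ?_, k2, by omega, by omega⟩
      intro z hz
      have : z = 0 := by omega
      rw [this, uz0 (by show k ≤ N; omega) (by show k = N → _; omega)
        (fun c hc' => by have := (hm2 c hc').2; omega)]
      show ∑ c ∈ range k, m c + (ℓ 0 - ∑ c ∈ range k, m c) = ℓ 0
      omega
    · exfalso
      have hUk := hpre0 N 0 le_rfl (by omega) (fun _ => rfl)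
      obtain ⟨κ3, x3, hp3, hag3, huz3⟩ := hc m R N 0 _ _ hm2 (by omega) hUk
      refine insuff h1 S (r := 0) hp3 (by omega) (by omega) ?_ ?_ ?_ ?_
      · rw [huz3 0 le_rfl, uz0 (by show N ≤ N; omega) (by intro _; rfl)
          (fun c hc' => by have := (hm2 c hc').2; omega)]
        show ∑ c ∈ range N, m c + 0 ≤ _
        omega
      · rw [(hag3 0 le_rfl).1]
      · intro h59
        omega
      · intro h59
        omega
  have hind : ∀ y, y + 1 + μ ≤ R → ∃ κ x : ℕ → ℕ, UPre m R N y κ x ∧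
      (∀ z ≤ y, uz m R N κ x z = ℓ z) ∧
      κ y < N ∧ (R - 60 * M ≤ y → N0 ≤ κ (R - 60 * M)) ∧
      (R - E0 - 2 * Mb ≤ y → N00 ≤ κ (R - E0 - 2 * Mb)) := by
    intro y
    induction y with
    | zero => intro _; exact hstart
    | succ y ih =>
      intro hy
      obtain ⟨κ, x, c1, c2, c3, c4, c5⟩ := ih (by omega)
      exact stepR h1 h4 hc S y (by omega) c1 c2 c3 c4 c5
  obtain ⟨κ, x, c1, c2, c3, c4, c5⟩ := hind (R - 1 - μ) (by omega)
  exact ⟨κ, x, c1, c2, c3, c4 (by omega), c5 (by omega)⟩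

end Pool.Agent.Helper12.UN
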