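import Pool.Agent.Helper90.UN.Goals

/-!
# Project UN (MP_d3128a_ag): TEL
-/

set_option autoImplicit false

noncomputable section

namespace Pool.Agent.Helper12.UN.TEL

open Pool.Agent.Helper90.UN Pool.Agent.Helper97.Nag

theorem irr_aux {r : ℝ} (h : Irrational r) (a b : ℤ) (ha : a ≠ 0) : r * (a : ℝ) ≠ (b : ℝ) := by
  intro he
  apply h
  refine ⟨(b : ℚ) / (a : ℚ), ?_⟩
  have ha' : (a : ℝ) ≠ 0 := by exact_mod_cast ha
  push_cast
  rw [← he]
  field_simp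

theorem floor_fract {x y : ℝ} (z : ℤ) (h : x - y = z) : (⌊x⌋ : ℝ) = x - Int.fract y := by
  have h1 : Int.fract x = Int.fract y := Int.fract_eq_fract.2 ⟨z, h⟩
  rw [← h1]
  have := Int.self_sub_floor x
  linarith

theorem sum_lin (k : ℕ) (a b : ℝ) :
    ∑ i ∈ Finset.range k, (a - b * i) = k * a - b * (k * (k - 1) / 2) := by
  induction k with
  | zero => simp
  | succ k ih =>
    rw [Finset.sum_range_succ, ih]
    push_cast
    ring

theorem t (hR : S_ROW) : S_TEL := by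
  intro n d s S hn hsq hs hns hS
  have hn0 : (0 : ℝ) ≤ n := Nat.cast_nonneg n
  have hirr : Irrational √(n : ℝ) := irrational_sqrt_natCast_iff.2 hsq
  have hr2 : √(n : ℝ) * √(n : ℝ) = n := Real.mul_self_sqrt hn0
  have hrnn : 0 ≤ √(n : ℝ) := Real.sqrt_nonneg _
  generalize hr : √(n : ℝ) = r at *
  have hn10 : (10 : ℝ) ≤ n := by exact_mod_cast hn
  have hr3 : 3 < r := by
    by_contra hcon
    rw [not_lt] at hcon
    nlinarith
  have hrho0 : 0 < 3 * r - 9 := by linarith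
  have hrho : Irrational (3 * r - 9) := by
    rintro ⟨q, hq⟩
    apply hirr
    refine ⟨(q + 9) / 3, ?_⟩
    push_cast
    rw [hq]
    ring
  have hrow := hR d s (3 * r - 9) S hrho0 hrho hS hs
  have hsR : (1 : ℝ) ≤ s := by exact_mod_cast hs
  -- the position of the break
  have hrs : r * s < d := by
    have h1 : (n : ℝ) * s ^ 2 < d ^ 2 := by exact_mod_cast hns
    have h2 : (r * (s : ℝ)) ^ 2 < (d : ℝ) ^ 2 := by
      have h3 : (r * (s : ℝ)) ^ 2 = (r * r) * (s : ℝ) ^ 2 := by ring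
      rw [h3, hr2]
      exact h1
    exact lt_of_pow_lt_pow_left₀ 2 (Nat.cast_nonneg d) h2
  obtain ⟨I, hI⟩ : ∃ I : ℕ, I = ⌈(d : ℝ) / 3 - r / 3 * s⌉₊ := ⟨_, rfl⟩
  have hpos : 0 < (d : ℝ) / 3 - r / 3 * s := by linarith
  have hI1 : (d : ℝ) / 3 - r / 3 * s ≤ I := by rw [hI]; exact Nat.le_ceil _
  have hI2 : (I : ℝ) < (d : ℝ) / 3 - r / 3 * s + 1 := by rw [hI]; exact Nat.ceil_lt_add_one hpos.le
  obtain ⟨ε, hε⟩ : ∃ ε : ℝ, ε = r / 3 * s - d / 3 + I := ⟨_, rfl⟩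
  have hε0 : 0 < ε := by
    rcases lt_or_eq_of_le (show 0 ≤ ε by linarith) with h | h
    · exact h
    · exfalso
      have h1 : r * ((s : ℤ) : ℝ) = (((d : ℤ) - 3 * (I : ℤ) : ℤ) : ℝ) := by
        push_cast
        linarith
      exact irr_aux hirr _ _ (by omega) h1
  have hε1 : ε < 1 := by linarith
  obtain ⟨k, hk⟩ : ∃ k : ℕ, k = ⌈r / 3 - ε⌉₊ := ⟨_, rfl⟩
  have hkpos : 0 < r / 3 - ε := by linarith
  have hk1 : r / 3 - ε ≤ k := by rw [hk]; exact Nat.le_ceil _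
  have hk2 : (k : ℝ) < r / 3 - ε + 1 := by rw [hk]; exact Nat.ceil_lt_add_one hkpos.le
  have hk0 : 1 ≤ k := by
    have : (0 : ℝ) < k := lt_of_lt_of_le hkpos hk1
    exact_mod_cast this
  obtain ⟨k', rfl⟩ : ∃ k', k = k' + 1 := ⟨k - 1, by omega⟩
  have hlt : ∀ i : ℕ, (i : ℝ) < r / 3 - ε ↔ i < k' + 1 := by
    intro i
    rw [hk]
    exact Nat.lt_ceil.symm
  -- the index set
  have hset : (Finset.range (d + 1)).filter
      (fun i : ℕ => (3 * r - 9 + 9) * ((s : ℝ) - 1) < 9 * ((d : ℝ) / 3 - i)) =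
      Finset.range (I + (k' + 1)) := by
    ext i
    rw [Finset.mem_filter, Finset.mem_range, Finset.mem_range]
    have hiff : (3 * r - 9 + 9) * ((s : ℝ) - 1) < 9 * ((d : ℝ) / 3 - i) ↔
        (i : ℝ) - I < r / 3 - ε := by
      rw [hε]
      constructor <;> intro h <;> nlinarith
    rw [hiff]
    constructor
    · rintro ⟨_, h2⟩
      rcases lt_or_ge i I with hi | hi
      · omega
      · have h3 : ((i - I : ℕ) : ℝ) < r / 3 - ε := by
          rw [Nat.cast_sub hi]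
          exact h2
        have := (hlt _).1 h3
        omega
    · intro h
      have h2 : (i : ℝ) - I < r / 3 - ε := by
        rcases lt_or_ge i I with hi | hi
        · have : (i : ℝ) < I := by exact_mod_cast hi
          linarith
        · have := (hlt (i - I)).2 (by omega)
          rw [Nat.cast_sub hi] at this
          exact this
      refine ⟨?_, h2⟩
      have h3 : (i : ℝ) < d / 3 := by
        have := hiff.2 h2
        have h4 : 0 ≤ (3 * r - 9 + 9) * ((s : ℝ) - 1) := by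
          apply mul_nonneg <;> linarith
        linarith
      have h4 : (i : ℝ) < d + 1 := by
        have : (0 : ℝ) ≤ d := Nat.cast_nonneg d
        linarith
      exact_mod_cast h4
  rw [hset, Finset.sum_range_add] at hrow
  -- first part
  have hfirst : ∑ i ∈ Finset.range I, (⌊(3 * r - 9 + 9) * ((d : ℝ) / 3 - s + 1 - i)⌋ -
      ⌊max ((3 * r - 9 + 9) * ((d : ℝ) / 3 - s - i)) ((3 * r - 9) * ((d : ℝ) / 3 - i))⌋) =
      ⌊(3 * r) * ((d : ℝ) / 3 - s + 1)⌋ - ⌊(3 * r) * ((d : ℝ) / 3 - s + 1 - I)⌋ := by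
    have h1 : ∀ i ∈ Finset.range I, (⌊(3 * r - 9 + 9) * ((d : ℝ) / 3 - s + 1 - i)⌋ -
      ⌊max ((3 * r - 9 + 9) * ((d : ℝ) / 3 - s - i)) ((3 * r - 9) * ((d : ℝ) / 3 - i))⌋) =
      ⌊(3 * r) * ((d : ℝ) / 3 - s + 1 - (i : ℕ))⌋ -
        ⌊(3 * r) * ((d : ℝ) / 3 - s + 1 - ((i + 1 : ℕ) : ℝ))⌋ := by
      intro i hi
      rw [Finset.mem_range] at hi
      have hi' : (i : ℝ) + 1 ≤ I := by exact_mod_cast hi
      have h2 : (3 * r - 9) * ((d : ℝ) / 3 - i) ≤ (3 * r - 9 + 9) * ((d : ℝ) / 3 - s - i) := by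
        nlinarith
      rw [max_eq_left h2]
      congr 2
      · ring
      · push_cast
        ring
    rw [Finset.sum_congr rfl h1, Finset.sum_range_sub']
    simp
  -- second part
  have hsecond : ∑ i ∈ Finset.range (k' + 1),
      (⌊(3 * r - 9 + 9) * ((d : ℝ) / 3 - s + 1 - ((I + i : ℕ) : ℝ))⌋ -
      ⌊max ((3 * r - 9 + 9) * ((d : ℝ) / 3 - s - ((I + i : ℕ) : ℝ)))
        ((3 * r - 9) * ((d : ℝ) / 3 - ((I + i : ℕ) : ℝ)))⌋) =
      ⌊(3 * r) * ((d : ℝ) / 3 - s + 1 - I)⌋ +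
      ∑ i ∈ Finset.range k', ⌊(3 * r) * ((d : ℝ) / 3 - s - I - i)⌋ -
      ∑ i ∈ Finset.range (k' + 1), ⌊(3 * r - 9) * ((d : ℝ) / 3 - I - i)⌋ := by
    have h1 : ∀ i ∈ Finset.range (k' + 1),
        (⌊(3 * r - 9 + 9) * ((d : ℝ) / 3 - s + 1 - ((I + i : ℕ) : ℝ))⌋ -
        ⌊max ((3 * r - 9 + 9) * ((d : ℝ) / 3 - s - ((I + i : ℕ) : ℝ)))
          ((3 * r - 9) * ((d : ℝ) / 3 - ((I + i : ℕ) : ℝ)))⌋) =
        ⌊(3 * r) * ((d : ℝ) / 3 - s + 1 - I - i)⌋ - ⌊(3 * r - 9) * ((d : ℝ) / 3 - I - i)⌋ := by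
      intro i _
      have hi : (0 : ℝ) ≤ i := Nat.cast_nonneg i
      have h2 : (3 * r - 9 + 9) * ((d : ℝ) / 3 - s - ((I + i : ℕ) : ℝ)) ≤
          (3 * r - 9) * ((d : ℝ) / 3 - ((I + i : ℕ) : ℝ)) := by
        push_cast
        nlinarith
      rw [max_eq_right h2]
      congr 2
      · push_cast
        ring
      · push_cast
        ring
    rw [Finset.sum_congr rfl h1, Finset.sum_sub_distrib, Finset.sum_range_succ' (n := k')]
    have h3 : ∑ i ∈ Finset.range k', ⌊(3 * r) * ((d : ℝ) / 3 - s + 1 - I - ((i + 1 : ℕ) : ℝ))⌋ =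
        ∑ i ∈ Finset.range k', ⌊(3 * r) * ((d : ℝ) / 3 - s - I - i)⌋ := by
      apply Finset.sum_congr rfl
      intro i _
      congr 1
      push_cast
      ring
    rw [h3, Nat.cast_zero, sub_zero]
    ring
  rw [hfirst, hsecond] at hrow
  -- to the reals
  obtain ⟨A, hA⟩ : ∃ A : ℝ, A = (if s = 1 ∧ 3 ∣ d then 1 else 0) := ⟨_, rfl⟩
  have hcard : ((lnv S s).card : ℝ) = A + (⌊(3 * r) * ((d : ℝ) / 3 - s + 1)⌋ : ℝ) +
      ∑ i ∈ Finset.range k', (⌊(3 * r) * ((d : ℝ) / 3 - s - I - i)⌋ : ℝ) -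
      ∑ i ∈ Finset.range (k' + 1), (⌊(3 * r - 9) * ((d : ℝ) / 3 - I - i)⌋ : ℝ) := by
    have h1 : ((lnv S s).card : ℤ) = (if s = 1 ∧ 3 ∣ d then 1 else 0) +
      ⌊(3 * r) * ((d : ℝ) / 3 - s + 1)⌋ +
      ∑ i ∈ Finset.range k', ⌊(3 * r) * ((d : ℝ) / 3 - s - I - i)⌋ -
      ∑ i ∈ Finset.range (k' + 1), ⌊(3 * r - 9) * ((d : ℝ) / 3 - I - i)⌋ := by
      rw [hrow]
      ring
    have h2 : (((lnv S s).card : ℤ) : ℝ) = (((if s = 1 ∧ 3 ∣ d then 1 else 0) +
      ⌊(3 * r) * ((d : ℝ) / 3 - s + 1)⌋ +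
      ∑ i ∈ Finset.range k', ⌊(3 * r) * ((d : ℝ) / 3 - s - I - i)⌋ -
      ∑ i ∈ Finset.range (k' + 1), ⌊(3 * r - 9) * ((d : ℝ) / 3 - I - i)⌋ : ℤ) : ℝ) := by
      rw [h1]
    push_cast at h2
    rw [hA, h2]
  have hrr : r * r = n := hr2
  have hf1 : (⌊(3 * r) * ((d : ℝ) / 3 - s + 1)⌋ : ℝ) = (3 * r) * ((d : ℝ) / 3 - s + 1) -
      Int.fract ((3 * r) * ((d : ℝ) / 3 - s + 1)) := floor_fract 0 (by push_cast; ring)
  have hf2 : ∀ i ∈ Finset.range k', (⌊(3 * r) * ((d : ℝ) / 3 - s - I - i)⌋ : ℝ) =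
      ((3 * r) * ((d : ℝ) / 3 - s - I) - (3 * r) * i) - Int.fract (-(3 * r) * (ε + i) - 9 * ε) := by
    intro i _
    rw [floor_fract (y := -(3 * r) * (ε + i) - 9 * ε)
      ((n : ℤ) * s - 3 * d + 9 * I) (by
        rw [hε]
        push_cast
        rw [← hrr]
        ring)]
    ring
  have hf3 : ∀ i ∈ Finset.range (k' + 1), (⌊(3 * r - 9) * ((d : ℝ) / 3 - I - i)⌋ : ℝ) =
      ((3 * r - 9) * ((d : ℝ) / 3 - I) - (3 * r - 9) * i) - Int.fract (-(3 * r) * (ε + i)) := by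
    intro i _
    rw [floor_fract (y := -(3 * r) * (ε + i))
      ((n : ℤ) * s - 3 * d + 9 * I + 9 * i) (by
        rw [hε]
        push_cast
        rw [← hrr]
        ring)]
    ring
  refine ⟨k' + 1, A, Int.fract ((3 * r) * ((d : ℝ) / 3 - s + 1)), ε, ?_, ?_⟩
  · refine ⟨hε0, hε1, ?_, hk1, Int.fract_nonneg _, Int.fract_lt_one _, ?_, ?_, ?_⟩
    · linarith
    · by_cases hc : s = 1 ∧ 3 ∣ d
      · right
        rw [if_pos hc] at hA
        refine ⟨hA, ?_⟩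
        obtain ⟨h1, e, he⟩ := hc
        subst h1
        have h2 : r / 3 - ε = ((e : ℤ) - I : ℤ) := by
          rw [hε, he]
          push_cast
          ring
        have h3 : (((e : ℤ) - I : ℤ) : ℝ) ≤ ((k' + 1 : ℕ) : ℤ) := by
          rw [← h2]
          exact_mod_cast hk1
        have h4 : (((k' + 1 : ℕ) : ℤ) : ℝ) < (((e : ℤ) - I + 1 : ℤ) : ℝ) := by
          push_cast
          push_cast at h2 hk2
          linarith
        have h5 : (e : ℤ) - I ≤ ((k' + 1 : ℕ) : ℤ) := by exact_mod_cast h3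
        have h6 : ((k' + 1 : ℕ) : ℤ) < (e : ℤ) - I + 1 := by exact_mod_cast h4
        have h7 : (e : ℤ) - I = ((k' + 1 : ℕ) : ℤ) := by omega
        rw [h2, h7]
        norm_cast
      · left
        rw [if_neg hc] at hA
        exact hA
    · intro i hi
      rw [Int.fract_pos]
      intro he
      have hi' := (hlt i).2 hi
      have hd : (0 : ℝ) < ((((d : ℤ) - 3 * I - 3 * i : ℤ)) : ℝ) := by
        push_cast
        have : 0 ≤ r * ((s : ℝ) - 1) := mul_nonneg hrnn (by linarith)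
        rw [hε] at hi'
        nlinarith
      have h1 : r * ((((d : ℤ) - 3 * I - 3 * i : ℤ)) : ℝ) =
          ((⌊-(3 * r) * (ε + i)⌋ + (n : ℤ) * s : ℤ) : ℝ) := by
        push_cast
        rw [← he, hε, ← hrr]
        ring
      exact irr_aux hirr _ _ (by
        intro h0
        rw [h0] at hd
        simp at hd) h1
    · intro i hi
      rw [Int.fract_pos]
      intro he
      have hi' := (hlt (i + 1)).2 (by omega)
      have hd : (0 : ℝ) < ((((d : ℤ) - 3 * I - 3 * i - 3 * s : ℤ)) : ℝ) := by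
        push_cast
        push_cast at hi'
        have : 0 ≤ (r - 3) * ((s : ℝ) - 1) := mul_nonneg (by linarith) (by linarith)
        rw [hε] at hi'
        nlinarith
      have h1 : r * ((((d : ℤ) - 3 * I - 3 * i - 3 * s : ℤ)) : ℝ) =
          ((⌊-(3 * r) * (ε + i) - 9 * ε⌋ + (n : ℤ) * s - 3 * d + 9 * I : ℤ) : ℝ) := by
        push_cast
        rw [← he, hε, ← hrr]
        ring
      exact irr_aux hirr _ _ (by
        intro h0
        rw [h0] at hd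
        simp at hd) h1
  · have hg2 : ∑ i ∈ Finset.range k', (⌊(3 * r) * ((d : ℝ) / 3 - s - I - i)⌋ : ℝ) =
        k' * ((3 * r) * ((d : ℝ) / 3 - s - I)) - (3 * r) * (k' * (k' - 1) / 2) -
          ∑ i ∈ Finset.range k', Int.fract (-(3 * r) * (ε + i) - 9 * ε) := by
      rw [← sum_lin, ← Finset.sum_sub_distrib]
      exact Finset.sum_congr rfl hf2
    have hg3 : ∑ i ∈ Finset.range (k' + 1), (⌊(3 * r - 9) * ((d : ℝ) / 3 - I - i)⌋ : ℝ) =
        ((k' + 1 : ℕ) : ℝ) * ((3 * r - 9) * ((d : ℝ) / 3 - I)) -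
          (3 * r - 9) * (((k' + 1 : ℕ) : ℝ) * (((k' + 1 : ℕ) : ℝ) - 1) / 2) -
          ∑ i ∈ Finset.range (k' + 1), Int.fract (-(3 * r) * (ε + i)) := by
      rw [← sum_lin, ← Finset.sum_sub_distrib]
      exact Finset.sum_congr rfl hf3
    rw [hcard, hf1, hg2, hg3]
    unfold WW
    rw [Nat.add_sub_cancel, hε, ← hrr]
    push_cast
    ring

end Pool.Agent.Helper12.UN.TEL
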